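import Pool.Agent.Helper51_X1.Slt

/-!
# X1, module SLO: opposite unipotent groups and generation of `SL_{n+1}(K)`
-/

open scoped BigOperators
open Matrix

noncomputable section

namespace Pool.Agent.PP.X1.Sl.H51

section

variable {K : Type} [Field K] {n : ℕ}

/-- the inverse in a finite group is a power -/
lemma inv_mem_of_finite {G : Type} [Group G] [Finite G] (S : Submonoid G) {g : G} (hg : g ∈ S) :
    g⁻¹ ∈ S := by
  have h1 : g * g ^ (orderOf g - 1) = 1 := by
    rw [← pow_succ', Nat.sub_add_cancel (orderOf_pos g), pow_orderOf_eq_one]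
  rw [inv_eq_of_mul_eq_one_right h1]
  exact S.pow_mem hg _

/-- the upper unitriangular matrices -/
def um (K : Type) [Field K] (n : ℕ) :
    Submonoid (Matrix.SpecialLinearGroup (Fin (n + 1)) K) where
  carrier := {g | (∀ x y, y < x → (g : Matrix (Fin (n + 1)) (Fin (n + 1)) K) x y = 0) ∧
    ∀ x, (g : Matrix (Fin (n + 1)) (Fin (n + 1)) K) x x = 1}
  mul_mem' := by
    rintro g h ⟨hg1, hg2⟩ ⟨hh1, hh2⟩
    constructor
    · intro x y hxy
      rw [Matrix.SpecialLinearGroup.coe_mul, Matrix.mul_apply]
      refine Finset.sum_eq_zero fun z _ => ?_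
      rcases lt_or_ge z x with hz | hz
      · rw [hg1 x z hz, zero_mul]
      · rw [hh1 z y (lt_of_lt_of_le hxy hz), mul_zero]
    · intro x
      rw [Matrix.SpecialLinearGroup.coe_mul, Matrix.mul_apply, Finset.sum_eq_single x]
      · rw [hg2, hh2, one_mul]
      · intro z _ hz
        rcases lt_or_gt_of_ne hz with h1 | h1
        · rw [hg1 x z h1, zero_mul]
        · rw [hh1 z x h1, mul_zero]
      · intro h
        exact absurd (Finset.mem_univ _) h
  one_mem' := by
    constructor
    · intro x y hxy
      rw [Matrix.SpecialLinearGroup.coe_one, Matrix.one_apply_ne hxy.ne']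
    · intro x
      rw [Matrix.SpecialLinearGroup.coe_one, Matrix.one_apply_eq]

/-- the lower triangular matrices -/
def lm (K : Type) [Field K] (n : ℕ) :
    Submonoid (Matrix.SpecialLinearGroup (Fin (n + 1)) K) where
  carrier := {g | ∀ x y, x < y → (g : Matrix (Fin (n + 1)) (Fin (n + 1)) K) x y = 0}
  mul_mem' := by
    intro g h hg hh x y hxy
    rw [Matrix.SpecialLinearGroup.coe_mul, Matrix.mul_apply]
    refine Finset.sum_eq_zero fun z _ => ?_
    rcases lt_or_ge x z with hz | hz
    · rw [hg x z hz, zero_mul]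
    · rw [hh z y (lt_of_le_of_lt hz hxy), mul_zero]
  one_mem' := by
    intro x y hxy
    rw [Matrix.SpecialLinearGroup.coe_one, Matrix.one_apply_ne hxy.ne]

/-- the upper unitriangular subgroup -/
def ug (K : Type) [Field K] [Finite K] (n : ℕ) :
    Subgroup (Matrix.SpecialLinearGroup (Fin (n + 1)) K) :=
  { um K n with inv_mem' := fun hg => inv_mem_of_finite (um K n) hg }

/-- the lower triangular subgroup -/
def lg (K : Type) [Field K] [Finite K] (n : ℕ) :
    Subgroup (Matrix.SpecialLinearGroup (Fin (n + 1)) K) :=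
  { lm K n with inv_mem' := fun hg => inv_mem_of_finite (lm K n) hg }

lemma tv_prod_coe (L : List (Matrix.TransvectionStruct (Fin (n + 1)) K)) :
    (((L.map fun t => tv K n t.i t.j t.c).prod : Matrix.SpecialLinearGroup (Fin (n + 1)) K) :
      Matrix (Fin (n + 1)) (Fin (n + 1)) K) =
      (L.map Matrix.TransvectionStruct.toMatrix).prod := by
  induction L with
  | nil => rfl
  | cons t L ih =>
    rw [List.map_cons, List.prod_cons, List.map_cons, List.prod_cons,
      Matrix.SpecialLinearGroup.coe_mul, ih, tv_coe t.hij]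
    rfl

lemma tv_prod_mem (L : List (Matrix.TransvectionStruct (Fin (n + 1)) K)) :
    (L.map fun t => tv K n t.i t.j t.c).prod ∈
      (⨆ b ∈ roots n, XX K n b : Subgroup (Matrix.SpecialLinearGroup (Fin (n + 1)) K)) := by
  refine Subgroup.list_prod_mem _ ?_
  intro g hg
  obtain ⟨t, -, rfl⟩ := List.mem_map.1 hg
  have h1 : XX K n (rt t.i t.j) ≤ ⨆ b ∈ roots n, XX K n b :=
    le_iSup₂_of_le (rt t.i t.j) ⟨t.i, t.j, t.hij, rfl⟩ le_rfl
  exact h1 (Subgroup.subset_closure ⟨t.i, t.j, t.c, t.hij, rfl, rfl⟩)

end

/-- SLO -/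
theorem slo (hslr : SlrStmt) (_ : SlxStmt) (_ : SltStmt) : SloStmt := by
  intro K _ _ n
  obtain ⟨-, -, -, hneg, -, hNn, -⟩ := hslr n
  constructor
  · rw [eq_bot_iff]
    have h1 : (⨆ b ∈ {b | b ∈ roots n ∧ Nn (al (n := n)) b}, XX K n b :
        Subgroup (Matrix.SpecialLinearGroup (Fin (n + 1)) K)) ≤ ug K n := by
      refine iSup₂_le fun b hb => ?_
      unfold XX
      rw [Subgroup.closure_le]
      rintro _ ⟨p, q, c, hpq, rfl, rfl⟩
      have hlt : p < q := (hNn p q hpq).1 hb.2
      constructor
      · intro x y hxy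
        rw [tv_apply hpq, if_neg hxy.ne']
        by_cases hx : x = p
        · rw [if_pos hx]
          have h2 : ¬ q = y := by
            rintro rfl
            rw [hx] at hxy
            exact absurd hxy (not_lt.2 hlt.le)
          rw [if_neg h2, zero_add]
        · rw [if_neg hx, zero_add]
      · intro x
        rw [tv_apply hpq, if_pos rfl]
        by_cases hx : x = p
        · rw [if_pos hx]
          have h2 : ¬ q = x := by
            rw [hx]
            exact hpq.symm
          rw [if_neg h2, add_zero]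
        · rw [if_neg hx, add_zero]
    have h2 : (TT K n ⊔ ⨆ b ∈ {b | b ∈ roots n ∧ Nn (al (n := n)) (-b)}, XX K n b :
        Subgroup (Matrix.SpecialLinearGroup (Fin (n + 1)) K)) ≤ lg K n := by
      refine sup_le ?_ (iSup₂_le fun b hb => ?_)
      · intro g hg x y hxy
        exact mem_TT.1 hg x y hxy.ne
      · unfold XX
        rw [Subgroup.closure_le]
        rintro _ ⟨p, q, c, hpq, rfl, rfl⟩
        have hb2 := hb.2
        rw [hneg] at hb2
        have hlt : q < p := (hNn q p hpq.symm).1 hb2
        intro x y hxy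
        rw [tv_apply hpq, if_neg hxy.ne]
        by_cases hx : x = p
        · rw [if_pos hx]
          have h2 : ¬ q = y := by
            rintro rfl
            rw [hx] at hxy
            exact absurd hxy (not_lt.2 hlt.le)
          rw [if_neg h2, zero_add]
        · rw [if_neg hx, zero_add]
    rintro g ⟨hg1, hg2⟩
    have h3 := h1 hg1
    have h4 := h2 hg2
    rw [Subgroup.mem_bot]
    apply Matrix.SpecialLinearGroup.ext
    intro x y
    rw [Matrix.SpecialLinearGroup.coe_one]
    rcases lt_trichotomy x y with h | h | h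
    · rw [Matrix.one_apply_ne h.ne]
      exact h4 x y h
    · subst h
      rw [Matrix.one_apply_eq]
      exact h3.2 x
    · rw [Matrix.one_apply_ne h.ne']
      exact h3.1 x y h
  · rw [eq_top_iff]
    intro g _
    obtain ⟨L, L', D, h⟩ := Matrix.Pivot.exists_list_transvec_mul_diagonal_mul_list_transvec
      (g : Matrix (Fin (n + 1)) (Fin (n + 1)) K)
    have hdet : (Matrix.diagonal D).det = 1 := by
      have h1 := congrArg Matrix.det h
      rw [Matrix.det_mul, Matrix.det_mul, ← tv_prod_coe, ← tv_prod_coe,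
        Matrix.SpecialLinearGroup.det_coe, Matrix.SpecialLinearGroup.det_coe,
        Matrix.SpecialLinearGroup.det_coe, one_mul, mul_one] at h1
      exact h1.symm
    have hg : g = (L.map fun t => tv K n t.i t.j t.c).prod * ⟨Matrix.diagonal D, hdet⟩ *
        (L'.map fun t => tv K n t.i t.j t.c).prod := by
      apply Subtype.ext
      show (g : Matrix (Fin (n + 1)) (Fin (n + 1)) K) = _
      rw [h, ← tv_prod_coe, ← tv_prod_coe]
      rfl
    rw [hg]
    refine Subgroup.mul_mem _ (Subgroup.mul_mem _ ?_ ?_) ?_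
    · exact Subgroup.mem_sup_right (tv_prod_mem L)
    · refine Subgroup.mem_sup_left (mem_TT.2 ?_)
      intro p q hpq
      exact Matrix.diagonal_apply_ne D hpq
    · exact Subgroup.mem_sup_right (tv_prod_mem L')

end Pool.Agent.PP.X1.Sl.H51
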